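import Mathlib

set_option autoImplicit false
open MeasureTheory ProbabilityTheory Finset

namespace Pool.Agent.H.MP_b3d828_pr

/-- the potential edges on the vertex set `Fin n` -/
abbrev Pr (n : ℕ) : Type := {e : Sym2 (Fin n) // ¬ e.IsDiag}

/-- `μ` is the law of a `d`-dependent random graph on `Fin n` with edge probability `p`. -/
def Dep (n d : ℕ) (p : ℝ) (μ : Measure (SimpleGraph (Fin n))) : Prop :=
  IsProbabilityMeasure μ ∧ (∀ e : Pr n, μ.real {G | e.1 ∈ G.edgeSet} = p) ∧
  ∃ D : SimpleGraph (Pr n), (∀ e, (D.neighborSet e).ncard ≤ d) ∧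
    ∀ e : Pr n, IndepFun (fun G : SimpleGraph (Fin n) => e.1 ∈ G.edgeSet)
      (fun (G : SimpleGraph (Fin n)) (f : {f : Pr n // f ≠ e ∧ ¬ D.Adj e f}) =>
        f.1.1 ∈ G.edgeSet) μ

lemma ms {n : ℕ} (A : Set (SimpleGraph (Fin n))) : MeasurableSet A := by
  have : MeasurableSingletonClass (SimpleGraph (Fin n)) := ⟨fun G => by
    have : ({G} : Set (SimpleGraph (Fin n))) = SimpleGraph.Adj ⁻¹' {G.Adj} := by
      ext H; simp
    rw [this]; exact SimpleGraph.measurable_adj (measurableSet_singleton _)⟩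
  exact (Set.toFinite A).measurableSet

lemma mf {n : ℕ} {β : Type*} [MeasurableSpace β] (f : SimpleGraph (Fin n) → β) : Measurable f :=
  fun _ _ => ms _

lemma Dep.mono {n d d' : ℕ} {p : ℝ} {μ : Measure (SimpleGraph (Fin n))} (h : Dep n d p μ)
    (hd : d ≤ d') : Dep n d' p μ := by
  obtain ⟨h1, h2, D, h3, h4⟩ := h
  exact ⟨h1, h2, D, fun e => (h3 e).trans hd, h4⟩

section block
variable {n : ℕ} {Γ : Type}

def gr (c : Sym2 (Fin n) → Γ) (ω : Γ → Bool) : SimpleGraph (Fin n) :=
  SimpleGraph.fromEdgeSet {e | ω (c e) = true}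

noncomputable def coin (Γ : Type) (p : unitInterval) : Measure (Γ → Bool) :=
  Measure.infinitePi (fun _ : Γ => bernoulliMeasure true false p)

lemma coin_prob (p : unitInterval) : IsProbabilityMeasure (coin Γ p) := by
  unfold coin; infer_instance

lemma gr_adj (c : Sym2 (Fin n) → Γ) (ω : Γ → Bool) (u v : Fin n) :
    (gr c ω).Adj u v ↔ ω (c s(u, v)) = true ∧ u ≠ v := by
  simp [gr, SimpleGraph.fromEdgeSet_adj]

lemma gr_mem (c : Sym2 (Fin n) → Γ) (ω : Γ → Bool) (e : Pr n) :
    e.1 ∈ (gr c ω).edgeSet ↔ ω (c e.1) = true := by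
  have := e.2
  simp [gr, SimpleGraph.edgeSet_fromEdgeSet, this]

lemma gr_meas (c : Sym2 (Fin n) → Γ) : Measurable (gr c) := by
  rw [SimpleGraph.measurable_iff_adj]
  intro u v
  simp only [gr_adj]
  fun_prop

lemma absent (p : unitInterval) (T : Finset Γ) :
    (coin Γ p).real {ω | ∀ γ ∈ T, ω γ = false} = (1 - p) ^ T.card := by
  have : {ω : Γ → Bool | ∀ γ ∈ T, ω γ = false} = Set.pi (T : Set Γ) (fun _ => {false}) := by
    ext ω; simp
  rw [this, measureReal_def, coin, Measure.infinitePi_pi _ (fun _ _ => measurableSet_singleton _),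
    prod_const, ENNReal.toReal_pow, ← measureReal_def,
    bernoulliMeasure_real_apply_of_notMem_of_mem p (measurableSet_singleton _) (by simp) (by simp)]

lemma present (p : unitInterval) (γ : Γ) : (coin Γ p).real {ω | ω γ = true} = p := by
  have : {ω : Γ → Bool | ω γ = true} = Set.pi (({γ} : Finset Γ) : Set Γ) (fun _ => {true}) := by
    ext ω; simp
  rw [this, measureReal_def, coin, Measure.infinitePi_pi _ (fun _ _ => measurableSet_singleton _),
    prod_singleton, ← measureReal_def,
    bernoulliMeasure_real_apply_of_mem_of_notMem p (measurableSet_singleton _) (by simp) (by simp)]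

lemma real_map (p : unitInterval) (c : Sym2 (Fin n) → Γ) (A : Set (SimpleGraph (Fin n))) :
    ((coin Γ p).map (gr c)).real A = (coin Γ p).real (gr c ⁻¹' A) :=
  map_measureReal_apply (gr_meas c) (ms A)

lemma block (p : unitInterval) (c : Sym2 (Fin n) → Γ) (d : ℕ)
    (hc : ∀ e, {f | c f = c e}.ncard ≤ d + 1) : Dep n d p ((coin Γ p).map (gr c)) := by
  classical
  have := coin_prob (Γ := Γ) p
  refine ⟨Measure.isProbabilityMeasure_map (gr_meas c).aemeasurable, fun e => ?_,
    SimpleGraph.fromRel (fun e f => c e.1 = c f.1), fun e => ?_, fun e => ?_⟩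
  · rw [real_map, ← present p (c e.1)]
    congr 1; ext ω; simp [gr_mem]
  · have h1 : Subtype.val '' ((SimpleGraph.fromRel (fun e f : Pr n => c e.1 = c f.1)).neighborSet e)
        ⊆ {f | c f = c e.1} \ {e.1} := by
      rintro _ ⟨f, hf, rfl⟩
      simp only [SimpleGraph.mem_neighborSet, SimpleGraph.fromRel_adj] at hf
      refine ⟨by rcases hf.2 with h | h <;> simp [h], fun h => hf.1 (Subtype.ext h.symm)⟩
    have h2 := Set.ncard_le_ncard h1 (Set.toFinite _)
    rw [Set.ncard_image_of_injective _ Subtype.val_injective,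
      Set.ncard_sdiff_singleton_of_mem (by simp)] at h2
    have := hc e.1
    omega
  · set D := SimpleGraph.fromRel (fun e f : Pr n => c e.1 = c f.1) with hD
    have hi : iIndepFun (fun (γ : Γ) (ω : Γ → Bool) => ω γ) (coin Γ p) :=
      iIndepFun_infinitePi (X := fun _ b => b) (fun _ => measurable_id)
    let T : Finset Γ := (univ.image c).erase (c e.1)
    have h1 := hi.indepFun_finset {c e.1} T (by simp [T]) (fun _ => measurable_pi_apply _)
    have hm : ∀ f : {f : Pr n // f ≠ e ∧ ¬ D.Adj e f}, c f.1.1 ∈ T := by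
      intro f
      have h3 := f.2
      simp only [hD, SimpleGraph.fromRel_adj, not_and, not_or] at h3
      simp only [T, mem_erase, mem_image, mem_univ, true_and, exists_apply_eq_apply, and_true]
      exact (h3.2 h3.1.symm).2
    have he : c e.1 ∈ ({c e.1} : Finset Γ) := mem_singleton_self _
    have h2 := h1.comp (φ := fun x => x ⟨c e.1, he⟩ = true)
      (ψ := fun x (f : {f : Pr n // f ≠ e ∧ ¬ D.Adj e f}) => x ⟨c f.1.1, hm f⟩ = true)
      (by fun_prop) (by fun_prop)
    rw [indepFun_iff_measure_inter_preimage_eq_mul] at h2 ⊢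
    intro s t hs ht
    rw [Measure.map_apply (gr_meas c) (ms _), Measure.map_apply (gr_meas c) (ms _),
      Measure.map_apply (gr_meas c) (ms _), Set.preimage_inter]
    have := h2 s t hs ht
    simpa only [← Set.preimage_comp, Function.comp_def, gr_mem] using this

/-- union bound: `A` holds as soon as each of the label sets `T i` has an active coin -/
lemma cover (p : unitInterval) (c : Sym2 (Fin n) → Γ) (A : Set (SimpleGraph (Fin n))) {ι : Type}
    (I : Finset ι) (T : ι → Finset Γ)
    (h : ∀ ω : Γ → Bool, (∀ i ∈ I, ∃ γ ∈ T i, ω γ = true) → gr c ω ∈ A) :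
    1 - ((coin Γ p).map (gr c)).real A ≤ ∑ i ∈ I, Real.exp (-(p * (T i).card)) := by
  have := coin_prob (Γ := Γ) p
  have : IsProbabilityMeasure ((coin Γ p).map (gr c)) :=
    Measure.isProbabilityMeasure_map (gr_meas c).aemeasurable
  rw [← probReal_compl_eq_one_sub (ms A), real_map]
  calc _ ≤ (coin Γ p).real (⋃ i ∈ I, {ω | ∀ γ ∈ T i, ω γ = false}) := by
        refine measureReal_mono (fun ω hω => ?_) (measure_ne_top _ _)
        by_contra hn
        refine hω (h ω fun i hi => ?_)
        by_contra h2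
        push Not at h2
        exact hn (Set.mem_biUnion hi fun γ hγ => by simpa using h2 γ hγ)
    _ ≤ _ := measureReal_biUnion_finset_le _ _
    _ ≤ _ := by
        refine sum_le_sum fun i _ => ?_
        rw [absent, show -((p : ℝ) * (T i).card) = (T i).card * (-p) by ring, Real.exp_nat_mul]
        exact pow_le_pow_left₀ (by linarith [p.2.2]) (Real.one_sub_le_exp_neg _) _

end block

end Pool.Agent.H.MP_b3d828_pr
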