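import Pool.Agent.H.MP_b3d828_pr.A

set_option autoImplicit false
open MeasureTheory ProbabilityTheory Finset

namespace Pool.Agent.H.MP_b3d828_pr

variable {s : ℕ} [hs : Fact s.Prime]

def sh (a : ZMod s) (w : ℕ × ZMod s) : ℕ × ZMod s := (w.1, w.2 + a)

def lab (E : Sym2 (ℕ × ZMod s)) : Finset (Sym2 (ℕ × ZMod s)) :=
  univ.image (fun a : ZMod s => E.map (sh a))

lemma mem_lab (E : Sym2 (ℕ × ZMod s)) : E ∈ lab E := by
  refine mem_image.2 ⟨0, mem_univ _, ?_⟩
  induction E with | _ u v => simp [sh]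

lemma lab_sh (i j : ℕ) (x y a : ZMod s) :
    lab s((i, x + a), (j, y + a)) = lab s((i, x), (j, y)) := by
  ext E
  simp only [lab, mem_image, mem_univ, true_and, Sym2.map_mk, sh]
  constructor
  · rintro ⟨b, rfl⟩; exact ⟨a + b, by simp [add_assoc]⟩
  · rintro ⟨b, rfl⟩; exact ⟨b - a, by simp⟩

lemma lab_eq {i j i' j' : ℕ} {x y x' y' : ZMod s}
    (h : lab s((i, x), (j, y)) = lab s((i', x'), (j', y'))) :
    ∃ a, s((i, x), (j, y)) = s((i', x' + a), (j', y' + a)) := by
  have := mem_lab s((i, x), (j, y))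
  rw [h] at this
  obtain ⟨a, -, ha⟩ := mem_image.1 this
  exact ⟨a, by simpa [sh] using ha.symm⟩

def ph (s : ℕ) {n : ℕ} (v : Fin n) : ℕ × ZMod s := (v.1 / s, (v.1 : ZMod s))

omit hs in
lemma ph_inj {n : ℕ} : Function.Injective (ph s : Fin n → _) := by
  intro u v h
  simp only [ph, Prod.mk.injEq, ZMod.natCast_eq_natCast_iff'] at h
  apply Fin.ext
  rw [← Nat.div_add_mod u.1 s, ← Nat.div_add_mod v.1 s, h.1, h.2]

lemma ph_surj {n : ℕ} (i : ℕ) (hi : i < n / s) (x : ZMod s) : ∃ v : Fin n, ph s v = (i, x) := by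
  have h0 := hs.out.pos
  have hx := ZMod.val_lt x
  have h1 : s * (i + 1) ≤ n := le_trans (Nat.mul_le_mul_left _ hi) (Nat.mul_div_le n s)
  refine ⟨⟨x.val + s * i, by nlinarith⟩, ?_⟩
  simp [ph, Nat.add_mul_div_left _ _ h0, Nat.div_eq_of_lt hx]

def cc (s n : ℕ) [Fact s.Prime] (e : Sym2 (Fin n)) : Finset (Sym2 (ℕ × ZMod s)) :=
  lab (e.map (ph s))

lemma cc_fib {n : ℕ} (e : Sym2 (Fin n)) : {f | cc s n f = cc s n e}.ncard ≤ s := by
  have h1 : Sym2.map (ph s) '' {f | cc s n f = cc s n e} ⊆ ↑(cc s n e) := by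
    rintro _ ⟨f, hf, rfl⟩
    rw [← show cc s n f = cc s n e from hf]
    exact mem_lab _
  have h2 := Set.ncard_le_ncard h1 (Set.toFinite _)
  rw [Set.ncard_image_of_injective _ (Sym2.map.injective ph_inj), Set.ncard_coe_finset] at h2
  refine h2.trans (card_image_le.trans ?_)
  simp [ZMod.card]

lemma conn {n : ℕ} (ω : Finset (Sym2 (ℕ × ZMod s)) → Bool)
    (ha : ∀ S ⊆ range (n / s), S.Nonempty → 2 * S.card ≤ n / s →
      ∃ i ∈ S, ∃ j ∈ range (n / s) \ S, ∃ t, ω (lab s((i, 0), (j, t))) = true)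
    (hb : ∃ i < n / s, ∃ t ≠ 0, ω (lab s((i, 0), (i, t))) = true)
    (hc : ∃ j < n / s, ∃ t, ω (lab s((n / s, 0), (j, t))) = true) :
    (gr (cc s n) ω).Connected := by
  classical
  obtain ⟨i0, hi0, t0, ht0, hb⟩ := hb
  obtain ⟨v0, hv0⟩ := ph_surj i0 hi0 0
  let R : ℕ × ZMod s → Prop := fun w => ∀ v : Fin n, ph s v = w → (gr (cc s n) ω).Reachable v0 v
  have step : ∀ i < n / s, ∀ x w, R (i, x) → ω (lab s((i, x), w)) = true → R w := by
    intro i hi x w hR hω v hv
    obtain ⟨u, hu⟩ := ph_surj i hi x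
    by_cases huv : u = v
    · exact huv ▸ hR u hu
    · refine (hR u hu).trans (SimpleGraph.Adj.reachable ?_)
      rw [gr_adj]
      exact ⟨by simpa [cc, hu, hv] using hω, huv⟩
  have f0 : ∀ x, R (i0, x) := by
    have : ∀ m : ℕ, R (i0, m * t0) := by
      intro m
      induction m with
      | zero => intro v hv; rw [ph_inj (hv.trans (by simpa using hv0.symm) : ph s v = ph s v0)]
      | succ m ih =>
        refine step i0 hi0 _ _ ih ?_
        rw [← hb, ← lab_sh i0 i0 0 t0 (m * t0)]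
        congr 4 <;> push_cast <;> ring
    intro x
    have := this (x / t0).val
    rwa [ZMod.natCast_zmod_val, div_mul_cancel₀ _ ht0] at this
  have t1 : ∀ i < n / s, ∀ j t, (∀ x, R (i, x)) → ω (lab s((i, 0), (j, t))) = true →
      ∀ y, R (j, y) := by
    intro i hi j t hF hω y
    refine step i hi (y - t) _ (hF _) ?_
    rw [← hω, ← lab_sh i j 0 t (y - t)]
    congr 4 <;> ring
  have t2 : ∀ j < n / s, ∀ i t, (∀ x, R (j, x)) → ω (lab s((i, 0), (j, t))) = true →
      ∀ y, R (i, y) := by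
    intro j hj i t hF hω y
    refine step j hj (t + y) _ (hF _) ?_
    rw [← hω, ← lab_sh i j 0 t y, Sym2.eq_swap, zero_add]
  have all : ∀ i < n / s, ∀ x, R (i, x) := by
    by_contra hn
    push Not at hn
    obtain ⟨i1, hi1, hx1⟩ := hn
    set S := (range (n / s)).filter (fun i => ∀ x, R (i, x)) with hS
    have hsub : S ⊆ range (n / s) := filter_subset _ _
    by_cases h2 : 2 * S.card ≤ n / s
    · obtain ⟨i, hi, j, hj, t, h⟩ := ha S hsub ⟨i0, by simp [hS, hi0, f0]⟩ h2
      simp only [hS, mem_filter, mem_range, mem_sdiff] at hi hj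
      exact hj.2 ⟨hj.1, t1 i hi.1 j t hi.2 h⟩
    · have hcard := card_sdiff_add_card_eq_card hsub
      rw [card_range] at hcard
      obtain ⟨i, hi, j, hj, t, h⟩ := ha (range (n / s) \ S) sdiff_subset
        ⟨i1, by simpa [hS, hi1] using hx1⟩ (by omega)
      simp only [hS, mem_filter, mem_range, mem_sdiff] at hi hj
      have : ∀ x, R (j, x) := by
        by_contra h3
        exact hj.2 ⟨hj.1, fun h => h3 h.2⟩
      exact hi.2 ⟨hi.1, t2 j hj.1 i t this h⟩
  obtain ⟨j, hj, t, hc⟩ := hc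
  have last := t2 j hj _ t (all j hj) hc
  have key : ∀ v, (gr (cc s n) ω).Reachable v0 v := by
    intro v
    have h1 : v.1 / s ≤ n / s := Nat.div_le_div_right v.2.le
    rcases h1.lt_or_eq with h | h
    · exact all _ h _ v rfl
    · exact last _ v (by rw [← h]; rfl)
  have : Nonempty (Fin n) := ⟨v0⟩
  exact ⟨fun u v => (key u).symm.trans (key v)⟩

def cut (s : ℕ) [Fact s.Prime] (A B : Finset ℕ) : Finset (Finset (Sym2 (ℕ × ZMod s))) :=
  (A ×ˢ B ×ˢ (univ : Finset (ZMod s))).image (fun x => lab s((x.1, 0), (x.2.1, x.2.2)))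

lemma cut_card (A B : Finset ℕ) (h : Disjoint A B) : (cut s A B).card = A.card * B.card * s := by
  rw [cut, card_image_of_injOn]
  · simp [ZMod.card, mul_assoc]
  · rintro ⟨i, j, t⟩ h1 ⟨i', j', t'⟩ h2 he
    simp only [coe_product, Set.mem_prod, mem_coe] at h1 h2
    obtain ⟨a, ha⟩ := lab_eq he
    simp only [Sym2.eq_iff, Prod.mk.injEq, zero_add] at ha
    rcases ha with ⟨⟨rfl, rfl⟩, rfl, ha⟩ | ⟨⟨rfl, -⟩, -⟩
    · simpa using ha
    · exact absurd h2.2.1 (disjoint_left.1 h h1.1)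

def ins (s : ℕ) [Fact s.Prime] (k m : ℕ) : Finset (Finset (Sym2 (ℕ × ZMod s))) :=
  (range k ×ˢ Icc 1 m).image (fun x => lab s((x.1, 0), (x.1, (x.2 : ZMod s))))

lemma ins_card (k m : ℕ) (h : 2 * m < s) : (ins s k m).card = k * m := by
  rw [ins, card_image_of_injOn]
  · simp
  · rintro ⟨i, t⟩ h1 ⟨i', t'⟩ h2 he
    simp only [coe_product, Set.mem_prod, mem_coe, mem_Icc] at h1 h2
    obtain ⟨a, ha⟩ := lab_eq he
    simp only [Sym2.eq_iff, Prod.mk.injEq, zero_add] at ha
    rcases ha with ⟨⟨rfl, rfl⟩, -, ha⟩ | ⟨⟨rfl, ha⟩, -, rfl⟩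
    · rw [add_zero, ZMod.natCast_eq_natCast_iff', Nat.mod_eq_of_lt (by omega),
        Nat.mod_eq_of_lt (by omega)] at ha
      rw [ha]
    · rw [← Nat.cast_add, eq_comm, ZMod.natCast_eq_zero_iff] at ha
      have := Nat.le_of_dvd (by omega) ha
      omega

lemma prob (n : ℕ) (p : unitInterval) (ρ : ℝ) (h3 : 3 ≤ s) (hk : n ≤ 2 * (n / s * s))
    (hρ : Real.exp (-(p * n / 8)) ≤ ρ) (hkρ : (n / s : ℕ) * ρ ≤ 1) :
    1 - ((coin _ p).map (gr (cc s n))).real {G | G.Connected} ≤ 4 * ρ := by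
  classical
  set k := n / s with hkd
  have hp := p.2.1
  have hk' : (n : ℝ) ≤ 2 * (k * s) := by exact_mod_cast hk
  have hρ0 : 0 ≤ ρ := (Real.exp_pos _).le.trans hρ
  have hn0 : (0 : ℝ) ≤ n := Nat.cast_nonneg _
  let I0 := (range k).powerset.filter (fun S => S.Nonempty ∧ 2 * S.card ≤ k)
  have h := cover p (cc s n) {G | G.Connected} (I0.disjSum (univ : Finset Bool))
    (Sum.elim (fun S => cut s S (range k \ S))
      (fun b => if b then ins s k ((s - 1) / 2) else cut s {k} (range k))) (by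
      intro ω hω
      refine conn ω (fun S hS h1 h2 => ?_) ?_ ?_
      · obtain ⟨γ, hγ, h⟩ := hω (.inl S) (by simpa [I0, h1] using ⟨hS, h2⟩)
        obtain ⟨⟨i, j, t⟩, hx, rfl⟩ := mem_image.1 hγ
        simp only [mem_product] at hx
        exact ⟨i, hx.1, j, hx.2.1, t, h⟩
      · obtain ⟨γ, hγ, h⟩ := hω (.inr true) (by simp)
        obtain ⟨⟨i, t⟩, hx, rfl⟩ := mem_image.1 hγ
        simp only [mem_product, mem_range, mem_Icc] at hx
        refine ⟨i, hx.1, t, fun h0 => ?_, h⟩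
        have := Nat.le_of_dvd (by omega) ((ZMod.natCast_eq_zero_iff _ _).1 h0)
        omega
      · obtain ⟨γ, hγ, h⟩ := hω (.inr false) (by simp)
        obtain ⟨⟨i, j, t⟩, hx, rfl⟩ := mem_image.1 hγ
        simp only [mem_product, mem_range, mem_singleton] at hx
        obtain ⟨rfl, hx, -⟩ := hx
        exact ⟨j, hx, t, h⟩)
  refine h.trans ?_
  rw [sum_disjSum]
  simp only [Sum.elim_inl, Sum.elim_inr, Fintype.sum_bool, if_true, Bool.false_eq_true, if_false]
  have b1 : Real.exp (-(p * ((ins s k ((s - 1) / 2)).card : ℝ))) ≤ ρ := by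
    refine le_trans (Real.exp_le_exp.2 ?_) hρ
    rw [ins_card _ _ (by omega)]
    have : s ≤ 4 * ((s - 1) / 2) := by omega
    have : (s : ℝ) ≤ 4 * ((s - 1) / 2 : ℕ) := by exact_mod_cast this
    push_cast
    have h5 : (n : ℝ) ≤ 8 * (k * ((s - 1) / 2 : ℕ)) := by
      nlinarith [(Nat.cast_nonneg k : (0 : ℝ) ≤ k)]
    nlinarith
  have b2 : Real.exp (-(p * ((cut s {k} (range k)).card : ℝ))) ≤ ρ := by
    refine le_trans (Real.exp_le_exp.2 ?_) hρ
    rw [cut_card _ _ (by simp)]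
    simp only [card_singleton, card_range]
    push_cast
    nlinarith
  have b3 : ∑ S ∈ I0, Real.exp (-(p * ((cut s S (range k \ S)).card : ℝ))) ≤ 2 * ρ := by
    calc _ ≤ ∑ S ∈ I0, (ρ ^ 2) ^ S.card := by
          refine sum_le_sum fun S hS => ?_
          simp only [I0, mem_filter, mem_powerset] at hS
          have hcard := card_sdiff_add_card_eq_card hS.1
          rw [card_range] at hcard
          rw [cut_card _ _ disjoint_sdiff, ← pow_mul]
          refine le_trans ?_ (pow_le_pow_left₀ (Real.exp_pos _).le hρ _)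
          rw [← Real.exp_nat_mul]
          refine Real.exp_le_exp.2 ?_
          have : k ≤ 2 * (range k \ S).card := by omega
          have : (k : ℝ) ≤ 2 * (range k \ S).card := by exact_mod_cast this
          have h5 : (n : ℝ) ≤ 4 * ((range k \ S).card * s) := by
            nlinarith [(Nat.cast_nonneg s : (0 : ℝ) ≤ s)]
          push_cast
          nlinarith [mul_le_mul_of_nonneg_left h5
            (mul_nonneg hp (Nat.cast_nonneg S.card : (0 : ℝ) ≤ S.card))]
      _ ≤ ∑ S ∈ (range k).powerset.erase ∅, (ρ ^ 2) ^ S.card := by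
          refine sum_le_sum_of_subset_of_nonneg (fun S hS => ?_) (fun _ _ _ => by positivity)
          simp only [I0, mem_filter] at hS
          exact mem_erase.2 ⟨hS.2.1.ne_empty, hS.1⟩
      _ = (1 + ρ ^ 2) ^ k - 1 := by
          rw [sum_erase_eq_sub (by simp)]
          have := prod_one_add (f := fun _ : ℕ => ρ ^ 2) (range k)
          simp only [prod_const, card_range] at this
          rw [this]; simp
      _ ≤ Real.exp (k * ρ ^ 2) - 1 := by
          rw [Real.exp_nat_mul]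
          gcongr
          linarith [Real.add_one_le_exp (ρ ^ 2)]
      _ ≤ 2 * ρ := by
          rcases Nat.eq_zero_or_pos k with h0 | h0
          · simp [h0, hρ0]
          have h1 : (1 : ℝ) ≤ k := by exact_mod_cast h0
          have h2 : (k : ℝ) * ρ ^ 2 ≤ ρ := by nlinarith
          have h4 : (0 : ℝ) ≤ k * ρ ^ 2 := by positivity
          have := Real.abs_exp_sub_one_le (x := k * ρ ^ 2) (by rw [abs_of_nonneg h4]; nlinarith)
          rw [abs_of_nonneg h4] at this
          linarith [le_abs_self (Real.exp (k * ρ ^ 2) - 1)]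
  linarith

end Pool.Agent.H.MP_b3d828_pr
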