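import Pool.Agent.H.MP_b3d828_pr.A

set_option autoImplicit false
open MeasureTheory ProbabilityTheory Finset

namespace Pool.Agent.H.MP_b3d828_pr

variable {n d : ℕ} {p : ℝ} {μ : Measure (SimpleGraph (Fin n))}

lemma card_pr (n : ℕ) : Fintype.card (Pr n) = n.choose 2 := by
  simpa using Sym2.card_subtype_not_diag (α := Fin n)

open Classical in
noncomputable def ind (e : Pr n) (G : SimpleGraph (Fin n)) : ℝ := if e.1 ∈ G.edgeSet then 1 else 0

lemma sum_ind (G : SimpleGraph (Fin n)) : ∑ e : Pr n, ind e G = G.edgeSet.ncard := by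
  classical
  simp only [ind, sum_boole]
  congr 1
  rw [← Set.ncard_coe_finset, ← Set.ncard_image_of_injective _ Subtype.val_injective]
  congr 1
  ext e
  simp only [coe_filter, mem_univ, true_and, Set.mem_image, Set.mem_ofPred_eq, Subtype.exists,
    exists_and_right, exists_eq_right]
  exact ⟨fun ⟨_, h⟩ => h, fun h => ⟨G.not_isDiag_of_mem_edgeSet h, h⟩⟩

lemma int_ind (e : Pr n) : ∫ G, ind e G ∂μ = μ.real {G | e.1 ∈ G.edgeSet} := by
  classical
  rw [← integral_indicator_one (ms _)]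
  congr 1
  ext G
  simp [ind, Set.indicator]

lemma int_ind2 (e f : Pr n) :
    ∫ G, ind e G * ind f G ∂μ = μ.real {G | e.1 ∈ G.edgeSet ∧ f.1 ∈ G.edgeSet} := by
  classical
  rw [← integral_indicator_one (ms _)]
  congr 1
  ext G
  simp only [ind, Set.indicator, Set.mem_ofPred_eq, Pi.one_apply]
  by_cases h1 : e.1 ∈ G.edgeSet <;> by_cases h2 : f.1 ∈ G.edgeSet <;> simp [h1, h2]

lemma intg [IsProbabilityMeasure μ] (f : SimpleGraph (Fin n) → ℝ) : Integrable f μ := by
  have : MeasurableSingletonClass (SimpleGraph (Fin n)) := ⟨fun _ => ms _⟩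
  exact Integrable.of_finite

lemma Dep.pair (h : Dep n d p μ) : ∃ N : Pr n → Finset (Pr n), (∀ e, (N e).card ≤ d) ∧
    ∀ e f, f ≠ e → f ∉ N e → μ.real {G | e.1 ∈ G.edgeSet ∧ f.1 ∈ G.edgeSet} = p ^ 2 := by
  classical
  obtain ⟨h1, h2, D, h3, h4⟩ := h
  refine ⟨fun e => (D.neighborSet e).toFinset, fun e => ?_, fun e f hne hf => ?_⟩
  · rw [← Set.ncard_eq_toFinset_card']; exact h3 e
  · have hf' : ¬ D.Adj e f := by simpa using hf
    have h5 := (h4 e).comp measurable_id
      (measurable_pi_apply (⟨f, hne, hf'⟩ : {f : Pr n // f ≠ e ∧ ¬ D.Adj e f}))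
    have h6 := h5.measure_inter_preimage_eq_mul {True} {True} (measurableSet_singleton _)
      (measurableSet_singleton _)
    have h7 := congrArg ENNReal.toReal h6
    rw [ENNReal.toReal_mul] at h7
    rw [sq]
    nth_rw 1 [← h2 e]
    rw [← h2 f]
    simpa [Set.preimage, Set.inter_def, measureReal_def] using h7

lemma Dep.markov (h : Dep n d p μ) (m : ℝ) :
    m * μ.real {G | m ≤ G.edgeSet.ncard} ≤ p * n.choose 2 := by
  obtain ⟨h1, h2, -⟩ := h
  have := mul_meas_ge_le_integral_of_nonneg (μ := μ) (f := fun G => (G.edgeSet.ncard : ℝ))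
    (Filter.Eventually.of_forall fun G => Nat.cast_nonneg _) (intg _) m
  refine this.trans (le_of_eq ?_)
  simp only [← sum_ind]
  rw [integral_finsetSum _ (fun e _ => intg _)]
  simp only [int_ind, h2, sum_const, card_univ, card_pr, nsmul_eq_mul, mul_comm]

lemma Dep.cheb (h : Dep n d p μ) (hp : 0 ≤ p) :
    (p * n.choose 2 / 2) ^ 2 * μ.real {G | (G.edgeSet.ncard : ℝ) ≤ p * n.choose 2 / 2} ≤
      p * n.choose 2 * (d + 1) := by
  classical
  obtain ⟨N, hN, hp2⟩ := h.pair
  obtain ⟨h1, h2, -⟩ := h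
  have h3 := mul_meas_ge_le_integral_of_nonneg (μ := μ)
    (f := fun G => (∑ e : Pr n, (ind e G - p)) ^ 2)
    (Filter.Eventually.of_forall fun G => sq_nonneg _) (intg _) ((p * n.choose 2 / 2) ^ 2)
  refine le_trans (mul_le_mul_of_nonneg_left
    (measureReal_mono (fun G hG => ?_) (measure_ne_top _ _)) (sq_nonneg _)) (h3.trans ?_)
  · simp only [Set.mem_ofPred_eq, sum_sub_distrib, sum_ind, sum_const, card_univ, card_pr,
      nsmul_eq_mul] at hG ⊢
    have : 0 ≤ p * n.choose 2 := by positivity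
    nlinarith
  · simp only [sq, sum_mul_sum]
    rw [integral_finsetSum _ (fun e _ => intg _)]
    calc _ ≤ ∑ _e : Pr n, p * (d + 1) := sum_le_sum fun e _ => ?_
      _ = _ := by simp only [sum_const, card_univ, card_pr, nsmul_eq_mul]; ring
    rw [integral_finsetSum _ (fun e _ => intg _)]
    have hc : ∀ f, ∫ G, (ind e G - p) * (ind f G - p) ∂μ =
        μ.real {G | e.1 ∈ G.edgeSet ∧ f.1 ∈ G.edgeSet} - p ^ 2 := by
      intro f
      have : ∀ G, (ind e G - p) * (ind f G - p) =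
          ind e G * ind f G - (p * ind e G + (p * ind f G - p ^ 2)) := fun G => by ring
      simp only [this]
      rw [integral_sub (intg _) (intg _), integral_add (intg _) (intg _),
        integral_sub (intg _) (intg _), integral_const_mul, integral_const_mul, int_ind, int_ind,
        int_ind2, h2, h2]
      simp; ring
    simp only [hc]
    calc _ ≤ ∑ f : Pr n, if f ∈ insert e (N e) then p else 0 := sum_le_sum fun f _ => ?_
      _ ≤ _ := ?_
    · split_ifs with hf
      · have : μ.real {G | e.1 ∈ G.edgeSet ∧ f.1 ∈ G.edgeSet} ≤ μ.real {G | e.1 ∈ G.edgeSet} :=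
          measureReal_mono (fun G hG => hG.1) (measure_ne_top _ _)
        rw [h2] at this
        nlinarith
      · simp only [mem_insert, not_or] at hf
        rw [hp2 e f hf.1 hf.2]; simp
    · rw [sum_ite_mem, univ_inter, sum_const, nsmul_eq_mul, mul_comm]
      gcongr
      exact_mod_cast (card_insert_le _ _).trans (Nat.succ_le_succ (hN e))

lemma Dep.cherry (h : Dep n 0 p μ) :
    μ.real {G | ∃ u v w, v ≠ w ∧ G.Adj u v ∧ G.Adj u w} ≤ n ^ 3 * p ^ 2 := by
  classical
  obtain ⟨N, hN, hp2⟩ := h.pair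
  obtain ⟨h1, h2, -⟩ := h
  calc _ ≤ μ.real (⋃ x ∈ (univ : Finset (Fin n × Fin n × Fin n)),
        {G | x.2.1 ≠ x.2.2 ∧ G.Adj x.1 x.2.1 ∧ G.Adj x.1 x.2.2}) := by
        refine measureReal_mono (fun G ⟨u, v, w, hG⟩ => ?_) (measure_ne_top _ _)
        exact Set.mem_biUnion (mem_univ (u, v, w)) hG
    _ ≤ _ := measureReal_biUnion_finset_le _ _
    _ ≤ ∑ _x : Fin n × Fin n × Fin n, p ^ 2 := sum_le_sum ?_
    _ = _ := by simp [pow_succ, mul_assoc]
  rintro ⟨u, v, w⟩ -
  by_cases hb : v ≠ w ∧ u ≠ v ∧ u ≠ w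
  · rw [← hp2 ⟨s(u, v), by simpa using hb.2.1⟩ ⟨s(u, w), by simpa using hb.2.2⟩
      (by simp [hb.1.symm, hb.2.1]) (by simp [card_eq_zero.1 (Nat.le_zero.1 (hN _))])]
    exact measureReal_mono (fun G hG => hG.2) (measure_ne_top _ _)
  · refine le_of_eq_of_le ?_ (sq_nonneg p)
    convert measureReal_empty
    exact Set.eq_empty_of_forall_notMem fun G hG => hb ⟨hG.1, hG.2.1.ne, hG.2.2.ne⟩

/-- edges with the same larger end and smaller ends in the same block of length `D` share a coin -/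
def cd (n D : ℕ) (e : Sym2 (Fin n)) : ℕ × ℕ := (e.sup.1, e.inf.1 / D)

lemma cd_fib (D : ℕ) (e : Sym2 (Fin n)) : {f | cd n (D + 1) f = cd n (D + 1) e}.ncard ≤ D + 1 := by
  have := Set.ncard_le_ncard_of_injOn (s := {f | cd n (D + 1) f = cd n (D + 1) e})
    (t := ↑(range (D + 1))) (fun f => f.inf.1 % (D + 1))
    (fun f _ => by simpa using Nat.mod_lt _ (Nat.succ_pos D)) (fun f hf g hg h => by
      have h1 : cd n (D + 1) f = cd n (D + 1) g := Eq.trans hf (Eq.symm hg)
      simp only [cd, Prod.mk.injEq] at h1 h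
      refine Sym2.inf_eq_inf_and_sup_eq_sup.1 ⟨Fin.ext ?_, Fin.ext h1.1⟩
      rw [← Nat.div_add_mod f.inf.1 (D + 1), ← Nat.div_add_mod g.inf.1 (D + 1), h1.2, h])
  simpa using this

lemma cd_empty (q : unitInterval) (D : ℕ) :
    1 - (q : ℝ) * (n * (n / (D + 1) + 1)) ≤ ((coin _ q).map (gr (cd n (D + 1)))).real {⊥} := by
  have := coin_prob (Γ := ℕ × ℕ) q
  rw [real_map]
  refine le_trans ?_ (measureReal_mono (s₁ := {ω : ℕ × ℕ → Bool | ∀ γ ∈ range n ×ˢ range (n / (D + 1) + 1),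
    ω γ = false}) (fun ω hω => ?_) (measure_ne_top _ _))
  · rw [absent]
    refine le_trans ?_ (one_add_mul_le_pow (a := -(q : ℝ)) (by linarith [q.2.2]) _)
    simp only [card_product, card_range]
    push_cast
    have h1 : ((n / (D + 1) : ℕ) : ℝ) ≤ n / (D + 1) := by
      simpa using Nat.cast_div_le (α := ℝ) (m := n) (n := D + 1)
    nlinarith [mul_le_mul_of_nonneg_left h1 (mul_nonneg q.2.1 (Nat.cast_nonneg n))]
  · simp only [Set.mem_preimage, Set.mem_singleton_iff]
    ext u v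
    rw [gr_adj, hω]
    · simp
    · simp only [cd, mem_product, mem_range]
      exact ⟨Fin.is_lt _, Nat.lt_succ_of_le (Nat.div_le_div_right (Fin.is_lt _).le)⟩

lemma cd_cherry (q : unitInterval) :
    1 - ((coin _ q).map (gr (cd n 2))).real {G | ∃ u v w, v ≠ w ∧ G.Adj u v ∧ G.Adj u w} ≤
      Real.exp (-(q * ((n / 4 : ℕ) * (n / 4 : ℕ)))) := by
  have := cover q (cd n 2) {G | ∃ u v w, v ≠ w ∧ G.Adj u v ∧ G.Adj u w} ({()} : Finset Unit)
    (fun _ => Ico (n - n / 4) n ×ˢ range (n / 4)) (by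
      intro ω h
      obtain ⟨⟨u, j⟩, hγ, h⟩ := h () (by simp)
      simp only [mem_product, mem_Ico, mem_range] at hγ
      refine ⟨⟨u, hγ.1.2⟩, ⟨2 * j, by omega⟩, ⟨2 * j + 1, by omega⟩, by simp, ?_, ?_⟩ <;>
      · rw [gr_adj]
        refine ⟨?_, by simp; omega⟩
        rw [← h]
        congr 1
        simp only [cd, Sym2.sup_mk, Sym2.inf_mk, Prod.mk.injEq, Fin.coe_max, Fin.coe_min]
        omega)
  simp only [sum_singleton, card_product, Nat.card_Ico, card_range] at this
  rwa [show n - (n - n / 4) = n / 4 by omega, Nat.cast_mul] at this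

end Pool.Agent.H.MP_b3d828_pr
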